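import Mathlib

/-!
# HIL: Hilbert identities `(a² + b² + c² + d²)³ = Σ ℓ_k⁶` with linear forms of equal norm (helper92)
-/

set_option autoImplicit false

namespace Pool.Agent.HIL

open Finset

/-- coefficients of a polynomial of degree 6 that vanishes identically -/
private lemma poly7 (D0 D1 D2 D3 D4 D5 D6 : ℝ)
    (h : ∀ t : ℝ, D0 + D1 * t + D2 * t ^ 2 + D3 * t ^ 3 + D4 * t ^ 4 + D5 * t ^ 5 + D6 * t ^ 6 = 0) :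
    D2 = 0 ∧ D3 = 0 := by
  have h0 := h 0
  have h1 := h 1
  have h2 := h (-1)
  have h3 := h 2
  have h4 := h (-2)
  have h5 := h 3
  have h6 := h (-3)
  norm_num at h0 h1 h2 h3 h4 h5 h6
  constructor <;> linarith

private lemma poly5 (D0 D1 D2 D3 D4 : ℝ)
    (h : ∀ t : ℝ, D0 + D1 * t + D2 * t ^ 2 + D3 * t ^ 3 + D4 * t ^ 4 = 0) :
    D1 = 0 ∧ D2 = 0 := by
  have h0 := h 0
  have h1 := h 1
  have h2 := h (-1)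
  have h3 := h 2
  have h4 := h (-2)
  norm_num at h0 h1 h2 h3 h4
  constructor <;> linarith

section
variable {N : ℕ} (v : Fin N → Fin 4 → ℝ)

private lemma dot_line (x y w : Fin 4 → ℝ) (t : ℝ) : w ⬝ᵥ (x + t • y) = w ⬝ᵥ x + t * (w ⬝ᵥ y) := by
  rw [dotProduct_add, dotProduct_smul, smul_eq_mul]

private lemma sq_line (x y : Fin 4 → ℝ) (t : ℝ) :
    (x + t • y) ⬝ᵥ (x + t • y) = x ⬝ᵥ x + 2 * t * (x ⬝ᵥ y) + t ^ 2 * (y ⬝ᵥ y) := by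
  rw [dot_line, add_dotProduct, add_dotProduct, smul_dotProduct, smul_dotProduct, smul_eq_mul,
    smul_eq_mul, dotProduct_comm y x]
  ring

/-- the polarised identities of degree 6 -/
private lemma pol6 (h : ∀ x : Fin 4 → ℝ, ∑ k, (v k ⬝ᵥ x) ^ 6 = (x ⬝ᵥ x) ^ 3) (x y : Fin 4 → ℝ) :
    15 * ∑ k, (v k ⬝ᵥ x) ^ 4 * (v k ⬝ᵥ y) ^ 2 =
      3 * (x ⬝ᵥ x) ^ 2 * (y ⬝ᵥ y) + 12 * (x ⬝ᵥ x) * (x ⬝ᵥ y) ^ 2 ∧
    20 * ∑ k, (v k ⬝ᵥ x) ^ 3 * (v k ⬝ᵥ y) ^ 3 =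
      8 * (x ⬝ᵥ y) ^ 3 + 12 * (x ⬝ᵥ x) * (y ⬝ᵥ y) * (x ⬝ᵥ y) := by
  have key := poly7
    (∑ k, (v k ⬝ᵥ x) ^ 6 - (x ⬝ᵥ x) ^ 3)
    (6 * ∑ k, (v k ⬝ᵥ x) ^ 5 * (v k ⬝ᵥ y) - 6 * (x ⬝ᵥ x) ^ 2 * (x ⬝ᵥ y))
    (15 * ∑ k, (v k ⬝ᵥ x) ^ 4 * (v k ⬝ᵥ y) ^ 2 -
      (3 * (x ⬝ᵥ x) ^ 2 * (y ⬝ᵥ y) + 12 * (x ⬝ᵥ x) * (x ⬝ᵥ y) ^ 2))
    (20 * ∑ k, (v k ⬝ᵥ x) ^ 3 * (v k ⬝ᵥ y) ^ 3 -
      (8 * (x ⬝ᵥ y) ^ 3 + 12 * (x ⬝ᵥ x) * (y ⬝ᵥ y) * (x ⬝ᵥ y)))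
    (15 * ∑ k, (v k ⬝ᵥ x) ^ 2 * (v k ⬝ᵥ y) ^ 4 -
      (3 * (x ⬝ᵥ x) * (y ⬝ᵥ y) ^ 2 + 12 * (y ⬝ᵥ y) * (x ⬝ᵥ y) ^ 2))
    (6 * ∑ k, (v k ⬝ᵥ x) * (v k ⬝ᵥ y) ^ 5 - 6 * (y ⬝ᵥ y) ^ 2 * (x ⬝ᵥ y))
    (∑ k, (v k ⬝ᵥ y) ^ 6 - (y ⬝ᵥ y) ^ 3) (by
      intro t
      have h1 := h (x + t • y)
      rw [sq_line] at h1
      have h2 : ∑ k, (v k ⬝ᵥ (x + t • y)) ^ 6 =
          ∑ k, (v k ⬝ᵥ x) ^ 6 + 6 * t * ∑ k, (v k ⬝ᵥ x) ^ 5 * (v k ⬝ᵥ y) +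
          15 * t ^ 2 * ∑ k, (v k ⬝ᵥ x) ^ 4 * (v k ⬝ᵥ y) ^ 2 +
          20 * t ^ 3 * ∑ k, (v k ⬝ᵥ x) ^ 3 * (v k ⬝ᵥ y) ^ 3 +
          15 * t ^ 4 * ∑ k, (v k ⬝ᵥ x) ^ 2 * (v k ⬝ᵥ y) ^ 4 +
          6 * t ^ 5 * ∑ k, (v k ⬝ᵥ x) * (v k ⬝ᵥ y) ^ 5 +
          t ^ 6 * ∑ k, (v k ⬝ᵥ y) ^ 6 := by
        simp only [Finset.mul_sum, ← Finset.sum_add_distrib]
        refine Finset.sum_congr rfl fun k _ => ?_
        rw [dot_line]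
        ring
      rw [h2] at h1
      linear_combination h1)
  constructor
  · linarith [key.1]
  · linarith [key.2]

/-- the polarised identities of degree 4 -/
private lemma pol4 (c : ℝ) (h : ∀ x : Fin 4 → ℝ, ∑ k, (v k ⬝ᵥ x) ^ 4 = c * (x ⬝ᵥ x) ^ 2)
    (x y : Fin 4 → ℝ) :
    ∑ k, (v k ⬝ᵥ x) ^ 3 * (v k ⬝ᵥ y) = c * (x ⬝ᵥ x) * (x ⬝ᵥ y) ∧
    6 * ∑ k, (v k ⬝ᵥ x) ^ 2 * (v k ⬝ᵥ y) ^ 2 =
      c * (2 * (x ⬝ᵥ x) * (y ⬝ᵥ y) + 4 * (x ⬝ᵥ y) ^ 2) := by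
  have key := poly5
    (∑ k, (v k ⬝ᵥ x) ^ 4 - c * (x ⬝ᵥ x) ^ 2)
    (4 * ∑ k, (v k ⬝ᵥ x) ^ 3 * (v k ⬝ᵥ y) - 4 * c * (x ⬝ᵥ x) * (x ⬝ᵥ y))
    (6 * ∑ k, (v k ⬝ᵥ x) ^ 2 * (v k ⬝ᵥ y) ^ 2 -
      c * (2 * (x ⬝ᵥ x) * (y ⬝ᵥ y) + 4 * (x ⬝ᵥ y) ^ 2))
    (4 * ∑ k, (v k ⬝ᵥ x) * (v k ⬝ᵥ y) ^ 3 - 4 * c * (y ⬝ᵥ y) * (x ⬝ᵥ y))
    (∑ k, (v k ⬝ᵥ y) ^ 4 - c * (y ⬝ᵥ y) ^ 2) (by
      intro t
      have h1 := h (x + t • y)
      rw [sq_line] at h1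
      have h2 : ∑ k, (v k ⬝ᵥ (x + t • y)) ^ 4 =
          ∑ k, (v k ⬝ᵥ x) ^ 4 + 4 * t * ∑ k, (v k ⬝ᵥ x) ^ 3 * (v k ⬝ᵥ y) +
          6 * t ^ 2 * ∑ k, (v k ⬝ᵥ x) ^ 2 * (v k ⬝ᵥ y) ^ 2 +
          4 * t ^ 3 * ∑ k, (v k ⬝ᵥ x) * (v k ⬝ᵥ y) ^ 3 +
          t ^ 4 * ∑ k, (v k ⬝ᵥ y) ^ 4 := by
        simp only [Finset.mul_sum, ← Finset.sum_add_distrib]
        refine Finset.sum_congr rfl fun k _ => ?_
        rw [dot_line]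
        ring
      rw [h2] at h1
      linear_combination h1)
  constructor
  · linarith [key.1]
  · linarith [key.2]

private lemma pol2 (c : ℝ) (h : ∀ x : Fin 4 → ℝ, ∑ k, (v k ⬝ᵥ x) ^ 2 = c * (x ⬝ᵥ x))
    (x y : Fin 4 → ℝ) : ∑ k, (v k ⬝ᵥ x) * (v k ⬝ᵥ y) = c * (x ⬝ᵥ y) := by
  have h1 := h (x + (1 : ℝ) • y)
  rw [sq_line] at h1
  have h2 : ∑ k, (v k ⬝ᵥ (x + (1 : ℝ) • y)) ^ 2 =
      ∑ k, (v k ⬝ᵥ x) ^ 2 + 2 * ∑ k, (v k ⬝ᵥ x) * (v k ⬝ᵥ y) + ∑ k, (v k ⬝ᵥ y) ^ 2 := by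
    simp only [Finset.mul_sum, ← Finset.sum_add_distrib]
    refine Finset.sum_congr rfl fun k _ => ?_
    rw [dot_line]
    ring
  rw [h2, h x, h y] at h1
  linarith

private lemma dot_single (x : Fin 4 → ℝ) (j : Fin 4) : x ⬝ᵥ Pi.single j 1 = x j := by
  simp

private lemma single_sq (j : Fin 4) :
    (Pi.single j 1 : Fin 4 → ℝ) ⬝ᵥ (Pi.single j 1 : Fin 4 → ℝ) = 1 := by
  simp

private lemma sum_sq (x : Fin 4 → ℝ) : ∑ j, x j ^ 2 = x ⬝ᵥ x := by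
  simp only [dotProduct, pow_two]

variable {v} {ρ : ℝ}

/-- the moments -/
private lemma moments (hρ : ∀ k, v k ⬝ᵥ v k = ρ) (h : ∀ x : Fin 4 → ℝ,
    ∑ k, (v k ⬝ᵥ x) ^ 6 = (x ⬝ᵥ x) ^ 3) : 0 < ρ ∧ N * ρ ^ 3 = 64 / 5 ∧
    (∀ x : Fin 4 → ℝ, ∑ k, (v k ⬝ᵥ x) ^ 4 = 8 / (5 * ρ) * (x ⬝ᵥ x) ^ 2) ∧
    (∀ x : Fin 4 → ℝ, ∑ k, (v k ⬝ᵥ x) ^ 2 = 16 / (5 * ρ ^ 2) * (x ⬝ᵥ x)) := by
  have e4 : ∀ x : Fin 4 → ℝ, 15 * (ρ * ∑ k, (v k ⬝ᵥ x) ^ 4) = 24 * (x ⬝ᵥ x) ^ 2 := by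
    intro x
    have h1 : ∀ j : Fin 4, 15 * ∑ k, (v k ⬝ᵥ x) ^ 4 * (v k j) ^ 2 =
        3 * (x ⬝ᵥ x) ^ 2 + 12 * (x ⬝ᵥ x) * x j ^ 2 := by
      intro j
      have h2 := (pol6 v h x (Pi.single j 1)).1
      rw [single_sq] at h2
      simp only [dot_single, mul_one] at h2
      exact h2
    have h3 : ∑ j : Fin 4, ∑ k, (v k ⬝ᵥ x) ^ 4 * (v k j) ^ 2 = ρ * ∑ k, (v k ⬝ᵥ x) ^ 4 := by
      rw [Finset.sum_comm, Finset.mul_sum]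
      refine Finset.sum_congr rfl fun k _ => ?_
      rw [← Finset.mul_sum, sum_sq, hρ, mul_comm]
    have s := sum_sq x
    rw [Fin.sum_univ_four] at h3 s
    rw [← h3]
    linear_combination h1 0 + h1 1 + h1 2 + h1 3 + 12 * (x ⬝ᵥ x) * s
  have hρ0 : 0 < ρ := by
    have h1 := e4 (Pi.single 0 1)
    rw [single_sq] at h1
    have h2 : 0 ≤ ∑ k, (v k ⬝ᵥ (Pi.single 0 1 : Fin 4 → ℝ)) ^ 4 :=
      Finset.sum_nonneg fun k _ => by positivity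
    by_contra hcon
    push Not at hcon
    nlinarith
  have m4 : ∀ x : Fin 4 → ℝ, ∑ k, (v k ⬝ᵥ x) ^ 4 = 8 / (5 * ρ) * (x ⬝ᵥ x) ^ 2 := by
    intro x
    have h1 := e4 x
    field_simp
    linarith
  have e2 : ∀ x : Fin 4 → ℝ, 6 * (ρ * ∑ k, (v k ⬝ᵥ x) ^ 2) = 8 / (5 * ρ) * (12 * (x ⬝ᵥ x)) := by
    intro x
    have h1 : ∀ j : Fin 4, 6 * ∑ k, (v k ⬝ᵥ x) ^ 2 * (v k j) ^ 2 =
        8 / (5 * ρ) * (2 * (x ⬝ᵥ x) + 4 * x j ^ 2) := by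
      intro j
      have h2 := (pol4 v _ m4 x (Pi.single j 1)).2
      rw [single_sq] at h2
      simp only [dot_single, mul_one] at h2
      exact h2
    have h3 : ∑ j : Fin 4, ∑ k, (v k ⬝ᵥ x) ^ 2 * (v k j) ^ 2 = ρ * ∑ k, (v k ⬝ᵥ x) ^ 2 := by
      rw [Finset.sum_comm, Finset.mul_sum]
      refine Finset.sum_congr rfl fun k _ => ?_
      rw [← Finset.mul_sum, sum_sq, hρ, mul_comm]
    have s := sum_sq x
    rw [Fin.sum_univ_four] at h3 s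
    rw [← h3]
    linear_combination h1 0 + h1 1 + h1 2 + h1 3 + 8 / (5 * ρ) * 4 * s
  have m2 : ∀ x : Fin 4 → ℝ, ∑ k, (v k ⬝ᵥ x) ^ 2 = 16 / (5 * ρ ^ 2) * (x ⬝ᵥ x) := by
    intro x
    have h1 := e2 x
    field_simp at h1 ⊢
    linarith
  have e0 : N * ρ ^ 3 = 64 / 5 := by
    have h1 : ∀ j : Fin 4, ∑ k, (v k j) ^ 2 = 16 / (5 * ρ ^ 2) := by
      intro j
      have h2 := m2 (Pi.single j 1)
      rw [single_sq] at h2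
      simp only [dot_single, mul_one] at h2
      exact h2
    have h3 : ∑ j : Fin 4, ∑ k, (v k j) ^ 2 = N * ρ := by
      rw [Finset.sum_comm, Finset.sum_congr rfl fun k _ => (sum_sq (v k)).trans (hρ k),
        Finset.sum_const, Finset.card_univ, Fintype.card_fin, nsmul_eq_mul]
    rw [Fin.sum_univ_four, h1, h1, h1, h1] at h3
    field_simp at h3
    linarith
  exact ⟨hρ0, e0, m4, m2⟩

/-- The kernel matrix `P`. -/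
private noncomputable def Pm (v : Fin N → Fin 4 → ℝ) (ρ : ℝ) : Matrix (Fin N) (Fin N) ℝ :=
  Matrix.of fun i j => 5 / 16 * (8 * (v i ⬝ᵥ v j) ^ 3 - 3 * ρ ^ 2 * (v i ⬝ᵥ v j))

private lemma Pm_idem (hρ : ∀ k, v k ⬝ᵥ v k = ρ) (h : ∀ x : Fin 4 → ℝ,
    ∑ k, (v k ⬝ᵥ x) ^ 6 = (x ⬝ᵥ x) ^ 3) (i j : Fin N) :
    ∑ k, Pm v ρ i k * Pm v ρ k j = Pm v ρ i j := by
  obtain ⟨h0, -, m4, m2⟩ := moments hρ h
  have r33 := (pol6 v h (v i) (v j)).2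
  have r31 := (pol4 v _ m4 (v i) (v j)).1
  have r13 := (pol4 v _ m4 (v j) (v i)).1
  have r11 := pol2 v _ m2 (v i) (v j)
  rw [hρ, hρ] at r33
  rw [hρ] at r31 r13
  have c1 : 8 / (5 * ρ) * ρ = 8 / 5 := by field_simp
  have c2 : 16 / (5 * ρ ^ 2) * ρ ^ 2 = 16 / 5 := by field_simp
  rw [c1] at r31 r13
  rw [dotProduct_comm (v j) (v i)] at r13
  have h1 : ∀ k, Pm v ρ i k * Pm v ρ k j =
      25 / 256 * (64 * ((v k ⬝ᵥ v i) ^ 3 * (v k ⬝ᵥ v j) ^ 3) -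
        24 * ρ ^ 2 * ((v k ⬝ᵥ v i) ^ 3 * (v k ⬝ᵥ v j)) -
        24 * ρ ^ 2 * ((v k ⬝ᵥ v j) ^ 3 * (v k ⬝ᵥ v i)) +
        9 * ρ ^ 4 * ((v k ⬝ᵥ v i) * (v k ⬝ᵥ v j))) := by
    intro k
    simp only [Pm, Matrix.of_apply]
    rw [dotProduct_comm (v i) (v k)]
    ring
  rw [Finset.sum_congr rfl fun k _ => h1 k, ← Finset.mul_sum, Finset.sum_add_distrib,
    Finset.sum_sub_distrib, Finset.sum_sub_distrib, ← Finset.mul_sum, ← Finset.mul_sum,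
    ← Finset.mul_sum, ← Finset.mul_sum, r31, r13, r11]
  have r33' : ∑ k, (v k ⬝ᵥ v i) ^ 3 * (v k ⬝ᵥ v j) ^ 3 =
      2 / 5 * (v i ⬝ᵥ v j) ^ 3 + 3 / 5 * ρ ^ 2 * (v i ⬝ᵥ v j) := by linarith
  rw [r33']
  simp only [Pm, Matrix.of_apply]
  have c3 : 9 * ρ ^ 4 * (16 / (5 * ρ ^ 2) * (v i ⬝ᵥ v j)) = 144 / 5 * ρ ^ 2 * (v i ⬝ᵥ v j) := by
    field_simp
    ring
  rw [c3]
  ring

/-- `P G = G` -/
private lemma Pm_gram (hρ : ∀ k, v k ⬝ᵥ v k = ρ) (h : ∀ x : Fin 4 → ℝ,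
    ∑ k, (v k ⬝ᵥ x) ^ 6 = (x ⬝ᵥ x) ^ 3) (i : Fin N) :
    ∑ k, Pm v ρ i k * (v k ⬝ᵥ v i) = ρ := by
  obtain ⟨h0, -, m4, m2⟩ := moments hρ h
  have r31 := (pol4 v _ m4 (v i) (v i)).1
  have r11 := pol2 v _ m2 (v i) (v i)
  rw [hρ] at r31 r11
  have h1 : ∀ k, Pm v ρ i k * (v k ⬝ᵥ v i) =
      5 / 16 * (8 * ((v k ⬝ᵥ v i) ^ 3 * (v k ⬝ᵥ v i)) -
        3 * ρ ^ 2 * ((v k ⬝ᵥ v i) * (v k ⬝ᵥ v i))) := by
    intro k
    simp only [Pm, Matrix.of_apply]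
    rw [dotProduct_comm (v i) (v k)]
    ring
  rw [Finset.sum_congr rfl fun k _ => h1 k, ← Finset.mul_sum, Finset.sum_sub_distrib,
    ← Finset.mul_sum, ← Finset.mul_sum, r31, r11]
  field_simp
  ring

/-- The complementary projection `E = 1 - P`. -/
private noncomputable def Em (v : Fin N → Fin 4 → ℝ) (ρ : ℝ) : Matrix (Fin N) (Fin N) ℝ :=
  1 - Pm v ρ

private lemma Pm_comm (i j : Fin N) : Pm v ρ i j = Pm v ρ j i := by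
  simp only [Pm, Matrix.of_apply]
  rw [dotProduct_comm]

private lemma Em_comm (i j : Fin N) : Em v ρ i j = Em v ρ j i := by
  simp only [Em, Matrix.sub_apply]
  rw [Pm_comm i j]
  by_cases hij : i = j
  · rw [hij]
  · rw [Matrix.one_apply_ne hij, Matrix.one_apply_ne (Ne.symm hij)]

private lemma Em_idem (hρ : ∀ k, v k ⬝ᵥ v k = ρ) (h : ∀ x : Fin 4 → ℝ,
    ∑ k, (v k ⬝ᵥ x) ^ 6 = (x ⬝ᵥ x) ^ 3) (i j : Fin N) :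
    ∑ k, Em v ρ i k * Em v ρ k j = Em v ρ i j := by
  have hP : Pm v ρ * Pm v ρ = Pm v ρ := by
    ext a b
    rw [Matrix.mul_apply]
    exact Pm_idem hρ h a b
  have hE : Em v ρ * Em v ρ = Em v ρ := by
    unfold Em
    rw [sub_mul, one_mul, mul_sub, mul_one, hP, sub_self, sub_zero]
  rw [← Matrix.mul_apply, hE]

private lemma Em_diag (hρ : ∀ k, v k ⬝ᵥ v k = ρ) (i : Fin N) :
    Em v ρ i i = 1 - 25 / 16 * ρ ^ 3 := by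
  simp only [Em, Matrix.sub_apply, Matrix.one_apply_eq, Pm, Matrix.of_apply, hρ]
  ring

private lemma Em_off (i k : Fin N) (hik : i ≠ k) :
    Em v ρ i k = -(5 / 16 * (8 * (v i ⬝ᵥ v k) ^ 3 - 3 * ρ ^ 2 * (v i ⬝ᵥ v k))) := by
  simp only [Em, Matrix.sub_apply, Matrix.one_apply_ne hik, Pm, Matrix.of_apply, zero_sub]

private lemma Em_sq (hρ : ∀ k, v k ⬝ᵥ v k = ρ) (h : ∀ x : Fin 4 → ℝ,
    ∑ k, (v k ⬝ᵥ x) ^ 6 = (x ⬝ᵥ x) ^ 3) (i : Fin N) :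
    ∑ k, Em v ρ i k ^ 2 = Em v ρ i i := by
  refine Eq.trans ?_ (Em_idem hρ h i i)
  refine Finset.sum_congr rfl fun k _ => ?_
  rw [Em_comm k i, pow_two]

private lemma Em_gram (hρ : ∀ k, v k ⬝ᵥ v k = ρ) (h : ∀ x : Fin 4 → ℝ,
    ∑ k, (v k ⬝ᵥ x) ^ 6 = (x ⬝ᵥ x) ^ 3) (i : Fin N) :
    ∑ k, Em v ρ i k * (v k ⬝ᵥ v i) = 0 := by
  have h1 := Pm_gram hρ h i
  have h2 : ∑ k, (1 : Matrix (Fin N) (Fin N) ℝ) i k * (v k ⬝ᵥ v i) = ρ := by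
    rw [Finset.sum_eq_single i]
    · rw [Matrix.one_apply_eq, hρ, one_mul]
    · intro b _ hb
      rw [Matrix.one_apply_ne (Ne.symm hb), zero_mul]
    · intro hi
      exact absurd (Finset.mem_univ i) hi
  have h3 : ∀ k, Em v ρ i k * (v k ⬝ᵥ v i) =
      (1 : Matrix (Fin N) (Fin N) ℝ) i k * (v k ⬝ᵥ v i) - Pm v ρ i k * (v k ⬝ᵥ v i) := by
    intro k
    simp only [Em, Matrix.sub_apply]
    ring
  rw [Finset.sum_congr rfl fun k _ => h3 k, Finset.sum_sub_distrib, h1, h2, sub_self]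

end

private lemma case20 {ρ : ℝ} (v : Fin 20 → Fin 4 → ℝ) (hρ : ∀ k, v k ⬝ᵥ v k = ρ)
    (h : ∀ x : Fin 4 → ℝ, ∑ k, (v k ⬝ᵥ x) ^ 6 = (x ⬝ᵥ x) ^ 3) : False := by
  obtain ⟨h0, hN, m4, m2⟩ := moments hρ h
  have hr : ρ ^ 3 = 16 / 25 := by
    push_cast at hN
    linarith
  have hE := Em_sq hρ h 0
  rw [Em_diag hρ, hr] at hE
  have hE1 : ∑ k, Em v ρ 0 k ^ 2 = 0 := by
    rw [hE]
    norm_num
  have hE0 : ∀ k, Em v ρ 0 k = 0 := by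
    intro k
    have h2 := (Finset.sum_eq_zero_iff_of_nonneg
      (fun k _ => sq_nonneg (Em v ρ 0 k))).1 hE1 k (Finset.mem_univ k)
    exact pow_eq_zero_iff (two_ne_zero) |>.1 h2
  have hg : ∀ k, k ≠ 0 → (v k ⬝ᵥ v 0) ^ 2 =
      if v k ⬝ᵥ v 0 = 0 then 0 else 3 / 8 * ρ ^ 2 := by
    intro k hk
    have h1 := hE0 k
    rw [Em_off 0 k (Ne.symm hk), dotProduct_comm] at h1
    split_ifs with hz
    · rw [hz]
      norm_num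
    · have h2 : (v k ⬝ᵥ v 0) * (8 * (v k ⬝ᵥ v 0) ^ 2 - 3 * ρ ^ 2) = 0 := by
        linear_combination (-16 / 5 : ℝ) * h1
      have h3 := (mul_eq_zero.1 h2).resolve_left hz
      linarith
  have h4 := Finset.add_sum_erase Finset.univ (fun k => (v k ⬝ᵥ v 0) ^ 2) (Finset.mem_univ 0)
  rw [Finset.sum_congr rfl (fun k hk => hg k (Finset.ne_of_mem_erase hk)), Finset.sum_ite,
    Finset.sum_const_zero, zero_add, Finset.sum_const, nsmul_eq_mul, m2 (v 0), hρ] at h4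
  generalize (Finset.filter (fun x => ¬ v x ⬝ᵥ v 0 = 0) (Finset.univ.erase 0)).card = m at h4
  have e : 16 / (5 * ρ ^ 2) * ρ * ρ = 16 / 5 := by field_simp
  have h7 : (1 + 3 / 8 * (m : ℝ)) * ρ ^ 3 = 16 / 5 := by linear_combination ρ * h4 + e
  rw [hr] at h7
  have h8 : 3 * (m : ℝ) = 32 := by linarith
  have h9 : 3 * m = 32 := by exact_mod_cast h8
  omega

private lemma arith (n : ℕ) (hn : n ≤ 20) (c : ℝ) (h1 : 32 * c ^ 3 - 12 * c + 1 = 0)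
    (h2 : 17 / 4 - c + 20 * (c ^ 2 - 3 / 8) = n * (3 * c ^ 2 - 3 / 8)) : False := by
  obtain ⟨A, hA⟩ : ∃ A : ℝ, A = 8 * (3 * (n : ℝ) - 20) := ⟨_, rfl⟩
  obtain ⟨C, hC⟩ : ∃ C : ℝ, C = 26 - 3 * (n : ℝ) := ⟨_, rfl⟩
  have h3 : A * c ^ 2 + 8 * c + C = 0 := by
    rw [hA, hC]
    linear_combination (-8 : ℝ) * h2
  obtain ⟨α, hα⟩ : ∃ α : ℝ, α = 2048 - 32 * A * C - 12 * A ^ 2 := ⟨_, rfl⟩
  obtain ⟨β, hβ⟩ : ∃ β : ℝ, β = 256 * C + A ^ 2 := ⟨_, rfl⟩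
  have h4 : α * c = -β := by
    rw [hα, hβ]
    linear_combination A ^ 2 * h1 - (32 * A * c - 256) * h3
  have h5 : 32 * (α * c) ^ 3 - 12 * α ^ 2 * (α * c) + α ^ 3 = 0 := by
    linear_combination α ^ 3 * h1
  rw [h4, hα, hβ, hA, hC] at h5
  clear h1 h2 h3 h4 hα hβ hA hC
  interval_cases n <;> norm_num at h5

private lemma case21 {ρ : ℝ} (v : Fin 21 → Fin 4 → ℝ) (hρ : ∀ k, v k ⬝ᵥ v k = ρ)
    (h : ∀ x : Fin 4 → ℝ, ∑ k, (v k ⬝ᵥ x) ^ 6 = (x ⬝ᵥ x) ^ 3) : False := by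
  obtain ⟨h0, hN, m4, m2⟩ := moments hρ h
  have hr : ρ ^ 3 = 64 / 105 := by
    push_cast at hN
    linarith
  have hd : ∀ j, Em v ρ j j = 1 / 21 := by
    intro j
    rw [Em_diag hρ, hr]
    norm_num
  have hle : ∀ j, Em v ρ 0 j ^ 2 ≤ 1 / 441 := by
    intro j
    have h1 := Finset.sum_mul_sq_le_sq_mul_sq Finset.univ (fun k => Em v ρ 0 k)
      (fun k => Em v ρ k j)
    have h2 : ∑ k, Em v ρ k j ^ 2 = 1 / 21 := by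
      refine Eq.trans ?_ ((Em_sq hρ h j).trans (hd j))
      exact Finset.sum_congr rfl fun k _ => by rw [Em_comm]
    rw [Em_idem hρ h 0 j, Em_sq hρ h 0, hd, h2] at h1
    linarith
  have hsum : ∑ j, (1 / 441 - Em v ρ 0 j ^ 2) = 0 := by
    rw [Finset.sum_sub_distrib, Em_sq hρ h 0, hd, Finset.sum_const, Finset.card_univ,
      Fintype.card_fin, nsmul_eq_mul]
    norm_num
  have heq : ∀ j, Em v ρ 0 j ^ 2 = 1 / 441 := by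
    intro j
    have h1 := (Finset.sum_eq_zero_iff_of_nonneg
      (fun j _ => by linarith [hle j])).1 hsum j (Finset.mem_univ j)
    linarith
  obtain ⟨e, he⟩ : ∃ e : Fin 21 → ℝ, ∀ k, e k = 21 * Em v ρ 0 k := ⟨_, fun _ => rfl⟩
  obtain ⟨u, hu⟩ : ∃ u : Fin 21 → ℝ, ∀ k, u k = (v k ⬝ᵥ v 0) / ρ := ⟨_, fun _ => rfl⟩
  have hg : ∀ k, v k ⬝ᵥ v 0 = u k * ρ := by
    intro k
    rw [hu]
    field_simp
  have he2 : ∀ k, e k ^ 2 = 1 := by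
    intro k
    rw [he, mul_pow, heq]
    norm_num
  have hu0 : u 0 = 1 := by
    rw [hu, hρ]
    field_simp
  have he0 : e 0 = 1 := by
    rw [he, hd]
    norm_num
  have hcub : ∀ k, k ≠ 0 → 32 * (e k * u k) ^ 3 - 12 * (e k * u k) + 1 = 0 := by
    intro k hk
    have h1 : e k = 12 * u k - 32 * u k ^ 3 := by
      rw [he, Em_off 0 k (Ne.symm hk), dotProduct_comm, hg]
      linear_combination (105 / 16 * (3 * u k - 8 * u k ^ 3)) * hr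
    linear_combination (32 * u k ^ 3 * e k) * he2 k + e k * h1 - he2 k
  have hs1 : ∑ k, e k * u k = 0 := by
    have h1 := Em_gram hρ h 0
    have h2 : ∑ k, e k * u k = 21 / ρ * ∑ k, Em v ρ 0 k * (v k ⬝ᵥ v 0) := by
      rw [Finset.mul_sum]
      refine Finset.sum_congr rfl fun k _ => ?_
      rw [he, hu]
      field_simp
    rw [h2, h1, mul_zero]
  have hs2 : ∑ k, (e k * u k) ^ 2 = 21 / 4 := by
    have h1 := m2 (v 0)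
    rw [hρ] at h1
    have h2 : ∑ k, (e k * u k) ^ 2 = 1 / ρ ^ 2 * ∑ k, (v k ⬝ᵥ v 0) ^ 2 := by
      rw [Finset.mul_sum]
      refine Finset.sum_congr rfl fun k _ => ?_
      rw [mul_pow, he2, hg]
      field_simp
    rw [h2, h1]
    have h3 : 1 / ρ ^ 2 * (16 / (5 * ρ ^ 2) * ρ) = 16 / (5 * ρ ^ 3) := by
      field_simp
    rw [h3, hr]
    norm_num
  have h4 := Finset.add_sum_erase Finset.univ (fun k => e k * u k) (Finset.mem_univ 0)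
  have h5 := Finset.add_sum_erase Finset.univ (fun k => (e k * u k) ^ 2) (Finset.mem_univ 0)
  simp only [he0, hu0, hs1] at h4
  simp only [he0, hu0, hs2] at h5
  obtain ⟨c, hc⟩ : ∃ c : ℝ, c = e 1 * u 1 := ⟨_, rfl⟩
  have hcc : 32 * c ^ 3 - 12 * c + 1 = 0 := by
    rw [hc]
    exact hcub 1 (by decide)
  have hq : ∀ k, k ≠ 0 → (e k * u k) ^ 2 + c * (e k * u k) + (c ^ 2 - 3 / 8) =
      if e k * u k = c then 3 * c ^ 2 - 3 / 8 else 0 := by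
    intro k hk
    split_ifs with hz
    · rw [hz]
      ring
    · have h6 : (e k * u k - c) * ((e k * u k) ^ 2 + c * (e k * u k) + (c ^ 2 - 3 / 8)) = 0 := by
        linear_combination (1 / 32 : ℝ) * hcub k hk - (1 / 32 : ℝ) * hcc
      exact (mul_eq_zero.1 h6).resolve_left (sub_ne_zero.2 hz)
  have h7 : ∑ k ∈ Finset.univ.erase (0 : Fin 21),
      ((e k * u k) ^ 2 + c * (e k * u k) + (c ^ 2 - 3 / 8)) =
      ∑ k ∈ Finset.univ.erase (0 : Fin 21), (if e k * u k = c then 3 * c ^ 2 - 3 / 8 else 0) :=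
    Finset.sum_congr rfl (fun k hk => hq k (Finset.ne_of_mem_erase hk))
  rw [Finset.sum_add_distrib, Finset.sum_add_distrib, ← Finset.mul_sum, Finset.sum_ite,
    Finset.sum_const_zero, add_zero, Finset.sum_const, Finset.sum_const, nsmul_eq_mul,
    nsmul_eq_mul, Finset.card_erase_of_mem (Finset.mem_univ _), Finset.card_univ,
    Fintype.card_fin] at h7
  have hcard : (Finset.filter (fun x => e x * u x = c) (Finset.univ.erase (0 : Fin 21))).card ≤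
      20 := by
    refine (Finset.card_filter_le _ _).trans ?_
    rw [Finset.card_erase_of_mem (Finset.mem_univ _), Finset.card_univ, Fintype.card_fin]
  generalize (Finset.filter (fun x => e x * u x = c) (Finset.univ.erase (0 : Fin 21))).card = n
    at h7 hcard
  refine arith n hcard c hcc ?_
  rw [← h7]
  push_cast
  linear_combination -h5 - c * h4

/-- If `(x₀² + x₁² + x₂² + x₃²)³` is a sum of `N` sixth powers of linear forms of equal norm, then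
`N ≥ 22`. -/
theorem le_of_equal_norm (N : ℕ) (v : Fin N → Fin 4 → ℝ) (ρ : ℝ) (hρ : ∀ k, v k ⬝ᵥ v k = ρ)
    (h : ∀ x : Fin 4 → ℝ, ∑ k, (v k ⬝ᵥ x) ^ 6 = (x ⬝ᵥ x) ^ 3) : 22 ≤ N := by
  obtain ⟨h0, hN, m4, m2⟩ := moments hρ h
  have hNpos : 0 < N := by
    rcases Nat.eq_zero_or_pos N with hz | hz
    · rw [hz] at hN
      norm_num at hN
    · exact hz
  have hE := Em_sq hρ h ⟨0, hNpos⟩
  have hE0 : 0 ≤ Em v ρ ⟨0, hNpos⟩ ⟨0, hNpos⟩ := by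
    rw [← hE]
    exact Finset.sum_nonneg fun k _ => sq_nonneg _
  rw [Em_diag hρ] at hE0
  have h20 : 20 ≤ N := by
    have h1 : (N : ℝ) * (1 - 25 / 16 * ρ ^ 3) = N - 20 := by
      linear_combination (-25 / 16 : ℝ) * hN
    have h2 : 0 ≤ (N : ℝ) * (1 - 25 / 16 * ρ ^ 3) := mul_nonneg (Nat.cast_nonneg N) hE0
    have h3 : (20 : ℝ) ≤ N := by linarith
    exact_mod_cast h3
  by_contra hlt
  push Not at hlt
  have hcases : N = 20 ∨ N = 21 := by omega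
  rcases hcases with hc | hc
  · subst hc
    exact case20 v hρ h
  · subst hc
    exact case21 v hρ h

end Pool.Agent.HIL
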